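import Pool.Agent.H705.RO.Stm2

/-! # RO DUP: the upper bound for the length of the set of large values (deterministic) -/

set_option autoImplicit false

namespace Pool.Agent.H97.RO

open MeasureTheory ProbabilityTheory Filter Topology Finset
open Pool.Agent.H705.RO

lemma tail_bound (W : ℕ → ℝ → ℝ) (S : ℝ → ℝ) (hUT : UT W S) :
    ∀ᶠ k : ℕ in atTop, ∀ t : ℝ, 0 ≤ t → t ≤ 2 ^ k → ∀ M : ℕ, k ^ 4 ≤ M →
      |S t - part W M t| ≤ 1 := by
  obtain ⟨K, hK⟩ := hUT 0
  have hlim : Tendsto (fun k : ℕ => 6 * |K| / Real.sqrt (k : ℝ)) atTop (𝓝 0) := by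
    refine Tendsto.div_atTop tendsto_const_nhds ?_
    exact Real.tendsto_sqrt_atTop.comp tendsto_natCast_atTop_atTop
  filter_upwards [hlim.eventually (ge_mem_nhds (show (0 : ℝ) < 1 by norm_num)),
    eventually_ge_atTop 1] with k hk hk1 t ht0 ht M hM
  have hk1' : (1 : ℝ) ≤ k := by exact_mod_cast hk1
  have hkpos : (0 : ℝ) < k := by linarith
  obtain ⟨l, h1, h2⟩ : ∃ l : ℕ, 2 ^ l ≤ k ∧ k < 2 ^ (l + 1) :=
    ⟨Nat.log 2 k, Nat.pow_log_le_self 2 (by omega), Nat.lt_pow_succ_log_self (by norm_num) k⟩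
  have h3 : 2 ^ (4 * l) ≤ M := by
    refine le_trans ?_ hM
    rw [mul_comm, pow_mul]
    exact Nat.pow_le_pow_left h1 4
  have h4 := hK (4 * l) k t ht0 ht M h3
  have h5 : (2 : ℝ) ^ (-(pe 0 * ((4 * l : ℕ) : ℝ) / 2)) ≤ 2 / k := by
    have h6 : -(pe 0 * ((4 * l : ℕ) : ℝ) / 2) = -(l : ℝ) := by
      unfold pe
      push_cast
      ring
    rw [h6, Real.rpow_neg (by norm_num), Real.rpow_natCast, ← one_div,
      div_le_div_iff₀ (by positivity) hkpos]
    have h7 : (k : ℝ) < 2 ^ (l + 1) := by exact_mod_cast h2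
    rw [pow_succ] at h7
    linarith
  have h7 : Real.sqrt (((4 * l : ℕ) : ℝ) + k + 1) ≤ 3 * Real.sqrt k := by
    rw [Real.sqrt_le_left (by positivity), mul_pow, Real.sq_sqrt hkpos.le]
    have h8 : l ≤ k := (Nat.lt_pow_self (by norm_num : 1 < 2)).le.trans h1
    have h9 : (l : ℝ) ≤ k := by exact_mod_cast h8
    push_cast
    linarith
  have hs : 0 < Real.sqrt (k : ℝ) := Real.sqrt_pos.mpr hkpos
  have hss : Real.sqrt (k : ℝ) * Real.sqrt k = k := Real.mul_self_sqrt hkpos.le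
  refine h4.trans (le_trans ?_ hk)
  have h10 : K * (2 : ℝ) ^ (-(pe 0 * ((4 * l : ℕ) : ℝ) / 2)) *
      Real.sqrt (((4 * l : ℕ) : ℝ) + k + 1) ≤ |K| * (2 / k * (3 * Real.sqrt k)) := by
    rw [mul_assoc]
    have h11 : (2 : ℝ) ^ (-(pe 0 * ((4 * l : ℕ) : ℝ) / 2)) *
        Real.sqrt (((4 * l : ℕ) : ℝ) + k + 1) ≤ 2 / k * (3 * Real.sqrt k) :=
      mul_le_mul h5 h7 (Real.sqrt_nonneg _) (by positivity)
    have h12 : 0 ≤ (2 : ℝ) ^ (-(pe 0 * ((4 * l : ℕ) : ℝ) / 2)) *
        Real.sqrt (((4 * l : ℕ) : ℝ) + k + 1) := by positivity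
    exact (mul_le_mul_of_nonneg_right (le_abs_self K) h12).trans
      (mul_le_mul_of_nonneg_left h11 (abs_nonneg K))
  refine h10.trans (le_of_eq ?_)
  rw [eq_div_iff hs.ne']
  calc |K| * (2 / (k : ℝ) * (3 * Real.sqrt k)) * Real.sqrt k
      = |K| * (2 / (k : ℝ) * (3 * (Real.sqrt k * Real.sqrt k))) := by ring
    _ = |K| * (2 / (k : ℝ) * (3 * k)) := by rw [hss]
    _ = 6 * |K| := by
      field_simp
      ring

lemma R_bound (a : ℕ → ℝ) (κ b b' q : ℝ) (hκ : 0 < κ) (hb : 0 < b) (hbb : b < b') (hq : 0 < q)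
    (hlim : Tendsto (fun N : ℕ => R a N / Real.log N ^ κ) atTop (𝓝 b)) :
    ∀ᶠ k : ℕ in atTop, R a (Nk q k) ≤ b' * (q * Real.log k + 1) ^ κ := by
  have hN : Tendsto (fun k : ℕ => Nk q k) atTop atTop :=
    tendsto_nat_ceil_atTop.comp ((tendsto_rpow_atTop hq).comp tendsto_natCast_atTop_atTop)
  have h1 : ∀ᶠ N : ℕ in atTop, R a N ≤ b' * Real.log N ^ κ := by
    filter_upwards [hlim.eventually (gt_mem_nhds hbb), eventually_ge_atTop 3] with N h2 h3
    have h4 : (1 : ℝ) < N := by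
      have : (3 : ℝ) ≤ N := by exact_mod_cast h3
      linarith
    have h5 : 0 < Real.log N ^ κ := Real.rpow_pos_of_pos (Real.log_pos h4) κ
    rw [div_lt_iff₀ h5] at h2
    exact h2.le
  filter_upwards [hN.eventually h1, eventually_ge_atTop 1] with k h2 hk1
  have hk1' : (1 : ℝ) ≤ k := by exact_mod_cast hk1
  have hkpos : (0 : ℝ) < k := by linarith
  refine h2.trans (mul_le_mul_of_nonneg_left ?_ (by linarith))
  refine Real.rpow_le_rpow (Real.log_natCast_nonneg _) ?_ hκ.le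
  have h3 : 1 ≤ (k : ℝ) ^ q := Real.one_le_rpow hk1' hq.le
  have h4 : (Nk q k : ℝ) ≤ 2 * (k : ℝ) ^ q := by
    have := (Nat.ceil_lt_add_one (show (0 : ℝ) ≤ (k : ℝ) ^ q by positivity)).le
    unfold Nk
    linarith
  have h5 : (0 : ℝ) < Nk q k := by
    have : (k : ℝ) ^ q ≤ Nk q k := Nat.le_ceil _
    linarith
  calc Real.log (Nk q k) ≤ Real.log (2 * (k : ℝ) ^ q) := Real.log_le_log h5 h4
    _ = Real.log 2 + q * Real.log k := by
      rw [Real.log_mul (by norm_num) (by positivity), Real.log_rpow hkpos]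
    _ ≤ q * Real.log k + 1 := by
      have := Real.log_two_lt_d9
      linarith

lemma fin_bound (κ q b' B : ℝ) (hκ : 0 < κ) (hq0 : 0 < q) (hqb : b' * q ^ κ < B) :
    ∀ᶠ y : ℝ in atTop, b' * (q * (y + 1) + 1) ^ κ + 2 ≤ B * y ^ κ := by
  have hy1 : Tendsto (fun y : ℝ => b' * ((q * (y + 1) + 1) / y) ^ κ + 2 / y ^ κ) atTop
      (𝓝 (b' * q ^ κ + 0)) := by
    refine Tendsto.add ?_ ?_
    · refine Tendsto.const_mul b' ?_
      refine Tendsto.rpow_const ?_ (Or.inl hq0.ne')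
      have h5 : Tendsto (fun y : ℝ => q + (q + 1) / y) atTop (𝓝 (q + 0)) :=
        tendsto_const_nhds.add (Tendsto.div_atTop tendsto_const_nhds tendsto_id)
      rw [add_zero] at h5
      refine h5.congr' ?_
      filter_upwards [eventually_gt_atTop 0] with y hy
      field_simp
      ring
    · exact Tendsto.div_atTop tendsto_const_nhds (tendsto_rpow_atTop hκ)
  rw [add_zero] at hy1
  have h2 := hy1.eventually (gt_mem_nhds hqb)
  filter_upwards [h2, eventually_gt_atTop 0] with y h2 hy0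
  have hyk : 0 < y ^ κ := Real.rpow_pos_of_pos hy0 κ
  rw [Real.div_rpow (by positivity) hy0.le] at h2
  have h4 := mul_lt_mul_of_pos_right h2 hyk
  have h3 : (b' * ((q * (y + 1) + 1) ^ κ / y ^ κ) + 2 / y ^ κ) * y ^ κ =
      b' * (q * (y + 1) + 1) ^ κ + 2 := by
    field_simp
  linarith

lemma pow_bound (s r : ℝ) (hs : max s 0 < r) :
    ∀ᶠ y : ℝ in atTop, Real.log 2 + y ^ s ≤ y ^ r := by
  have h1 : 0 < r - max s 0 := by linarith
  filter_upwards [(tendsto_rpow_atTop h1).eventually (eventually_ge_atTop 2),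
    eventually_ge_atTop 1] with y h2 hy1
  have hy0 : (0 : ℝ) < y := by linarith
  have h3 : y ^ s ≤ y ^ (max s 0) := Real.rpow_le_rpow_of_exponent_le hy1 (le_max_left _ _)
  have h4 : 1 ≤ y ^ (max s 0) := Real.one_le_rpow hy1 (le_max_right _ _)
  have h5 : y ^ r = y ^ (max s 0) * y ^ (r - max s 0) := by
    rw [← Real.rpow_add hy0]
    congr 1
    ring
  have h6 := Real.log_two_lt_d9
  have h7 : y ^ (max s 0) * 2 ≤ y ^ (max s 0) * y ^ (r - max s 0) :=
    mul_le_mul_of_nonneg_left h2 (by linarith)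
  linarith

theorem T_DUP : P_DUP := by
  intro W S a κ b ha hUT hpart hκ hb hlim hbound θ ε hθ0 hθ1 hε
  have hl2 : 0 < Real.log 2 := Real.log_pos (by norm_num)
  have hl2' : Real.log 2 ≤ 1 := by
    have := Real.log_two_lt_d9
    linarith
  -- the exponent
  have hτ0 : 0 < θ ^ (1 / κ) := Real.rpow_pos_of_pos hθ0 _
  have hτ1 : θ ^ (1 / κ) < 1 := Real.rpow_lt_one hθ0.le hθ1 (by positivity)
  have hτκ : (θ ^ (1 / κ)) ^ κ = θ := by
    rw [← Real.rpow_mul hθ0.le, one_div, inv_mul_cancel₀ hκ.ne', Real.rpow_one]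
  have hL : max (θ ^ (1 / κ) - ε) 0 < θ ^ (1 / κ) := max_lt (by linarith) hτ0
  obtain ⟨q, hq1, hq2⟩ := exists_rat_btwn hL
  have hq0 : (0 : ℝ) < q := lt_of_le_of_lt (le_max_right _ _) hq1
  have hp : max (θ ^ (1 / κ) - ε) 0 / q < 1 := (div_lt_one hq0).mpr hq1
  obtain ⟨p, hp1, hp2⟩ := exists_rat_btwn hp
  have hp0 : (0 : ℝ) < p := lt_of_le_of_lt (div_nonneg (le_max_right _ _) hq0.le) hp1
  have hpq : max (θ ^ (1 / κ) - ε) 0 < q * p := by
    rw [div_lt_iff₀ hq0] at hp1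
    linarith
  -- the constant
  have hqκ : (q : ℝ) ^ κ < θ := by
    calc (q : ℝ) ^ κ < (θ ^ (1 / κ)) ^ κ := Real.rpow_lt_rpow hq0.le hq2 hκ
      _ = θ := hτκ
  have hqκ0 : 0 < (q : ℝ) ^ κ := Real.rpow_pos_of_pos hq0 κ
  obtain ⟨b', hb1, hb2⟩ : ∃ b', b < b' ∧ b' < θ * b / (q : ℝ) ^ κ := by
    refine exists_between ?_
    rw [lt_div_iff₀ hqκ0]
    nlinarith
  rw [lt_div_iff₀ hqκ0] at hb2
  have hbd := hbound p q (by exact_mod_cast hp0) (by exact_mod_cast hp2)
    (by exact_mod_cast hq0) (by exact_mod_cast hq2.trans hτ1)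
  have hR := R_bound a κ b b' q hκ hb hb1 hq0 hlim
  have hT := tail_bound W S hUT
  have hF := fin_bound κ q b' (θ * b) hκ hq0 hb2
  have hP := pow_bound (θ ^ (1 / κ) - ε) (q * p) hpq
  have hlog : Tendsto Real.log atTop atTop := Real.tendsto_log_atTop
  have hk : Tendsto (fun t : ℝ => ⌈Real.log t / Real.log 2⌉₊) atTop atTop :=
    tendsto_nat_ceil_atTop.comp (Tendsto.atTop_div_const hl2 hlog)
  have hy : Tendsto (fun t : ℝ => Real.log (Real.log t)) atTop atTop := hlog.comp hlog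
  filter_upwards [hk.eventually hbd, hk.eventually hR, hk.eventually hT, hy.eventually hF,
    hlog.eventually hP, eventually_ge_atTop (Real.exp 1)] with T h1 h2 h3 h4 h5 hTe
  have hT0 : 0 < T := lt_of_lt_of_le (Real.exp_pos 1) hTe
  have hL1 : 1 ≤ Real.log T := by
    rw [Real.le_log_iff_exp_le hT0]
    exact hTe
  obtain ⟨k, hkdef⟩ : ∃ k : ℕ, k = ⌈Real.log T / Real.log 2⌉₊ := ⟨_, rfl⟩
  rw [← hkdef] at h1 h2 h3
  have hkge : Real.log T / Real.log 2 ≤ k := by
    rw [hkdef]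
    exact Nat.le_ceil _
  have hkle : (k : ℝ) < Real.log T / Real.log 2 + 1 := by
    rw [hkdef]
    exact Nat.ceil_lt_add_one (by positivity)
  have hTk : T ≤ 2 ^ k := by
    have h6 := hkge
    rw [div_le_iff₀ hl2] at h6
    have h7 : Real.log T ≤ Real.log (2 ^ k) := by
      rw [Real.log_pow]
      exact h6
    exact (Real.log_le_log_iff hT0 (by positivity)).mp h7
  have hkT : (2 : ℝ) ^ k ≤ 2 * T := by
    have h6 : (k : ℝ) * Real.log 2 ≤ Real.log T + Real.log 2 := by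
      have h7 := mul_le_mul_of_nonneg_right hkle.le hl2.le
      have h8 : (Real.log T / Real.log 2 + 1) * Real.log 2 = Real.log T + Real.log 2 := by
        field_simp
      linarith
    have h7 : Real.log (2 ^ k) ≤ Real.log (2 * T) := by
      rw [Real.log_pow, Real.log_mul (by norm_num) hT0.ne']
      linarith
    exact (Real.log_le_log_iff (by positivity) (by positivity)).mp h7
  have hkpos : (0 : ℝ) < k := lt_of_lt_of_le (by positivity) hkge
  have hk1 : (1 : ℝ) ≤ k := by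
    have : 0 < k := by exact_mod_cast hkpos
    exact_mod_cast this
  have hklog : Real.log T ≤ k := by
    refine le_trans ?_ hkge
    rw [le_div_iff₀ hl2]
    nlinarith
  have hlk : Real.log k ≤ Real.log (Real.log T) + 1 := by
    have h6 : (k : ℝ) ≤ Real.exp 1 * Real.log T := by
      have h7 : Real.log T / Real.log 2 ≤ 1.5 * Real.log T := by
        rw [div_le_iff₀ hl2]
        have := Real.log_two_gt_d9
        nlinarith
      have h8 := Real.exp_one_gt_d9
      nlinarith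
    calc Real.log k ≤ Real.log (Real.exp 1 * Real.log T) := Real.log_le_log hkpos h6
      _ = Real.log (Real.log T) + 1 := by
        rw [Real.log_mul (Real.exp_pos 1).ne' (by linarith), Real.log_exp]
        ring
  -- the bound for the partial sum
  have hR2 : R a (Nk q k) + 2 ≤ θ * b * Real.log (Real.log T) ^ κ := by
    refine le_trans ?_ h4
    have h6 : (q * Real.log k + 1 : ℝ) ^ κ ≤ (q * (Real.log (Real.log T) + 1) + 1) ^ κ := by
      refine Real.rpow_le_rpow ?_ ?_ hκ.le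
      · have := Real.log_nonneg hk1
        positivity
      · have := mul_le_mul_of_nonneg_left hlk hq0.le
        linarith
    have h7 := mul_le_mul_of_nonneg_left h6 (show 0 ≤ b' by linarith)
    linarith
  have hsub : {t : ℝ | 0 ≤ t ∧ t ≤ T ∧ θ * b * Real.log (Real.log T) ^ κ ≤ |S t|} ⊆
      {t : ℝ | 0 ≤ t ∧ t ≤ 2 ^ k ∧ 1 ≤ |∑ n ∈ Ico (Nk q k) (Nk q k + k ^ 4), W n t|} := by
    rintro t ⟨ht0, htT, htS⟩
    refine ⟨ht0, htT.trans hTk, ?_⟩
    have h6 := h3 t ht0 (htT.trans hTk) (Nk q k + k ^ 4) (Nat.le_add_left _ _)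
    have h7 := hpart (Nk q k) t
    have h8 : part W (Nk q k + k ^ 4) t =
        part W (Nk q k) t + ∑ n ∈ Ico (Nk q k) (Nk q k + k ^ 4), W n t := by
      unfold part
      exact (Finset.sum_range_add_sum_Ico _ (Nat.le_add_right _ _)).symm
    rw [h8] at h6
    obtain ⟨X, hX⟩ : ∃ X, X = ∑ n ∈ Ico (Nk q k) (Nk q k + k ^ 4), W n t := ⟨_, rfl⟩
    rw [← hX] at h6 ⊢
    have h9 : |S t| ≤ |S t - (part W (Nk q k) t + X)| + (|part W (Nk q k) t| + |X|) := by
      have h10 := abs_add_le (S t - (part W (Nk q k) t + X)) (part W (Nk q k) t + X)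
      rw [sub_add_cancel] at h10
      have h11 := abs_add_le (part W (Nk q k) t) X
      linarith
    linarith
  refine (measure_mono hsub).trans (h1.trans ?_)
  apply ENNReal.ofReal_le_ofReal
  have h6 : (k : ℝ) ^ (q : ℝ) ≤ Nk q k := Nat.le_ceil _
  have h7 : Real.log T ^ ((q : ℝ) * p) ≤ (Nk q k : ℝ) ^ (p : ℝ) := by
    calc Real.log T ^ ((q : ℝ) * p) ≤ (k : ℝ) ^ ((q : ℝ) * p) :=
          Real.rpow_le_rpow (by linarith) hklog (by positivity)
      _ = ((k : ℝ) ^ (q : ℝ)) ^ (p : ℝ) := Real.rpow_mul hkpos.le _ _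
      _ ≤ (Nk q k : ℝ) ^ (p : ℝ) := Real.rpow_le_rpow (by positivity) h6 hp0.le
  calc (2 : ℝ) ^ k * Real.exp (-((Nk q k : ℝ) ^ (p : ℝ)))
      ≤ (2 * T) * Real.exp (-(Real.log 2 + Real.log T ^ (θ ^ (1 / κ) - ε))) := by
        refine mul_le_mul hkT (Real.exp_le_exp.mpr (by linarith)) (Real.exp_pos _).le (by positivity)
    _ = T * Real.exp (-(Real.log T ^ (θ ^ (1 / κ) - ε))) := by
        rw [neg_add, Real.exp_add, Real.exp_neg (Real.log 2), Real.exp_log (by norm_num)]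
        ring

end Pool.Agent.H97.RO
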